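import Mathlib
import Pool.Agent.W245.PB.RealQ

/-!
# `p`-adic strong four exponentials: adjoining the logarithms of almost all tuples of integers

Let `p` be a prime, `K` a field of algebraic numbers (for instance all of them) and `V` any
`K`-subspace of the algebraic closure of `ℚ_p` of dimension at most `m`.  For almost all `k`-tuples
of positive integers the space `V' = V + K log_p a_1 + ⋯ + K log_p a_k` has dimension `dim V + k`,
and every `2 × 2` matrix with entries in `V'`, not all in `V`, with `K`-linearly independent rows and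
`K`-linearly independent columns, has nonzero determinant.  This is uniform in `p`, `K` and `V`.

The proof contains a complete proof of Brumer's theorem, the `p`-adic version of Baker's theorem
(`Pool.Agent.W245.PB.BakerThmP`).
-/

namespace Pool.Agent.Results.MP_dd0d16_nt.AlmostAllExtensions

open Module

/-- `L` is the Iwasawa `p`-adic logarithm on the algebraic closure of `ℚ_p`. -/
def IsIwasawaLog (p : ℕ) [Fact p.Prime] (L : PadicAlgCl p → PadicAlgCl p) : Prop :=
  (∀ x y : PadicAlgCl p, x ≠ 0 → y ≠ 0 → L (x * y) = L x + L y) ∧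
  L ((p : ℕ) : PadicAlgCl p) = 0 ∧
  ∀ z : PadicAlgCl p, ‖z‖ < 1 →
    HasSum (fun n : ℕ => (-1 : PadicAlgCl p) ^ n * z ^ (n + 1) / ((n : PadicAlgCl p) + 1))
      (L (1 + z))

open Classical in
/-- **Main result.** -/
theorem result (m k : ℕ) (ε : ℝ) (hε : 0 < ε) :
    ∃ x₀ : ℕ, ∀ x ≥ x₀, ∀ (p : ℕ) [Fact p.Prime] (L : PadicAlgCl p → PadicAlgCl p),
      IsIwasawaLog p L →
      ∀ K : IntermediateField ℚ (PadicAlgCl p), K ≤ algebraicClosure ℚ (PadicAlgCl p) →
      ∀ V : Submodule K (PadicAlgCl p), Module.Finite K V → finrank K V ≤ m →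
      (((Fintype.piFinset fun _ : Fin k => Finset.Icc 1 x).filter fun a =>
        ¬ (finrank K (V ⊔ Submodule.span K (Set.range fun i => L (a i : PadicAlgCl p)) :
            Submodule K (PadicAlgCl p)) = finrank K V + k ∧
          ∀ M : Matrix (Fin 2) (Fin 2) (PadicAlgCl p),
            (∀ i j, M i j ∈
              V ⊔ Submodule.span K (Set.range fun i => L (a i : PadicAlgCl p))) →
            (∃ i j, M i j ∉ V) →
            LinearIndependent K (fun i : Fin 2 => fun j : Fin 2 => M i j) →
            LinearIndependent K (fun j : Fin 2 => fun i : Fin 2 => M i j) →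
            M.det ≠ 0)).card : ℝ) ≤ ε * (x : ℝ) ^ k := by
  obtain ⟨x₀, hx₀⟩ := Pool.Agent.W245.PB.density_sub k m ε hε
  refine ⟨x₀, fun x hx p _ L hL K hK V hVf hVm => ?_⟩
  have hL' : Pool.Agent.W245.PB.IsIwasawaLog p L := ⟨hL.1, hL.2.1, hL.2.2⟩
  apply hx₀ x hx (PadicAlgCl p) (fun n : ℕ => L (n : PadicAlgCl p)) hL'.logLike K hK V hVf hVm
  · intro a ha
    exact (Finset.mem_filter.1 ha).1
  · intro a ha hgood
    apply (Finset.mem_filter.1 ha).2
    exact ⟨hgood.2, fun M hM hV hrow hcol => hgood.1.det_ne_zero M hM hrow hcol hV⟩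

end Pool.Agent.Results.MP_dd0d16_nt.AlmostAllExtensions
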