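import Mathlib
import Pool.Agent.W245.PB.RealQ

/-!
# `p`-adic four exponentials: sums over blocks of an arbitrary sequence of logarithms

There are universal bounds `0 = R_0 < R_1 < ⋯` (depending only on `m`) with the following property.
Let `p` be a prime, `w_0, w_1, …` any `ℚ`-linearly independent `p`-adic logarithms of algebraic
numbers, `K` a field of algebraic numbers (for instance all of them) and `V` a `K`-subspace of the
algebraic closure of `ℚ_p` of dimension at most `m`.  Then there are sets `S_i` of integers in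
`[R_i, R_{i+1})` such that, with `l_i = ∑_{j ∈ S_i} w_j`, the `l_i` are `K`-linearly independent
modulo `V`, and every `2 × 2` matrix with entries in `V + K l_0 + K l_1 + ⋯`, not all in `V`, with
`K`-linearly independent rows and `K`-linearly independent columns, has nonzero determinant.

The proof contains a complete proof of Brumer's theorem, the `p`-adic version of Baker's theorem
(`Pool.Agent.W245.PB.BakerThmP`).
-/

namespace Pool.Agent.Results.MP_dd0d16_nt.InfiniteSpaces

open Module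

/-- `L` is the Iwasawa `p`-adic logarithm on the algebraic closure of `ℚ_p`. -/
def IsIwasawaLog (p : ℕ) [Fact p.Prime] (L : PadicAlgCl p → PadicAlgCl p) : Prop :=
  (∀ x y : PadicAlgCl p, x ≠ 0 → y ≠ 0 → L (x * y) = L x + L y) ∧
  L ((p : ℕ) : PadicAlgCl p) = 0 ∧
  ∀ z : PadicAlgCl p, ‖z‖ < 1 →
    HasSum (fun n : ℕ => (-1 : PadicAlgCl p) ^ n * z ^ (n + 1) / ((n : PadicAlgCl p) + 1))
      (L (1 + z))

/-- **Main result.** -/
theorem result (m : ℕ) : ∃ R : ℕ → ℕ, StrictMono R ∧ R 0 = 0 ∧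
    ∀ (p : ℕ) [Fact p.Prime] (L : PadicAlgCl p → PadicAlgCl p), IsIwasawaLog p L →
    ∀ w : ℕ → PadicAlgCl p,
    (∀ i, ∃ α : PadicAlgCl p, α ≠ 0 ∧ IsAlgebraic ℚ α ∧ w i = L α) → LinearIndependent ℚ w →
    ∀ K : IntermediateField ℚ (PadicAlgCl p), K ≤ algebraicClosure ℚ (PadicAlgCl p) →
    ∀ V : Submodule K (PadicAlgCl p), Module.Finite K V → finrank K V ≤ m →
    ∃ S : ℕ → Finset ℕ, (∀ i, S i ⊆ Finset.Ico (R i) (R (i + 1))) ∧
      (∀ i, ∑ j ∈ S i, w j ∉ V ⊔ Submodule.span K ((fun i => ∑ j ∈ S i, w j) '' Set.Iio i)) ∧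
      ∀ M : Matrix (Fin 2) (Fin 2) (PadicAlgCl p),
        (∀ i j, M i j ∈ V ⊔ Submodule.span K (Set.range fun i => ∑ j ∈ S i, w j)) →
        (∃ i j, M i j ∉ V) →
        LinearIndependent K (fun i : Fin 2 => fun j : Fin 2 => M i j) →
        LinearIndependent K (fun j : Fin 2 => fun i : Fin 2 => M i j) → M.det ≠ 0 := by
  obtain ⟨R, hR, hR0, h⟩ := Pool.Agent.W245.PB.block_relFour m
  refine ⟨R, hR, hR0, fun p _ L hL w hw hli K hK V hVf hVm => ?_⟩
  have hL' : Pool.Agent.W245.PB.IsIwasawaLog p L := ⟨hL.1, hL.2.1, hL.2.2⟩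
  obtain ⟨S, hS, h1, h2⟩ := h (PadicAlgCl p) w
    (Pool.Agent.W245.PB.brumer_seq hL' w hw hli) K hK V hVf hVm
  exact ⟨S, hS, h1, fun M hM hV hrow hcol => h2.det_ne_zero M hM hrow hcol hV⟩

end Pool.Agent.Results.MP_dd0d16_nt.InfiniteSpaces
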