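import Pool.Agent.W254.PA.App

/-!
# Multiples of `p`-adic logarithms by rational functions of arbitrary numbers

The strong four exponentials conjecture says that for a transcendental number `R` there is, up to
multiplication by algebraic numbers, at most one linear form `y` in `1` and `p`-adic logarithms of
algebraic numbers, with algebraic coefficients, for which `R y` is again such a form.

Here `R` is replaced by the values `R(t)` of all rational functions of given degree of an arbitrary
tuple `t = (t_1, ..., t_n)` in the algebraic closure of `ℚ_p`; the function may depend on `y`.
For all but at most `2 ((4D)^n - 2^n)` members `y_i` of any family of such linear forms, linearly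
independent over the algebraic numbers, all the products `R(t) y_i` are not linear forms in `1` and
`p`-adic logarithms, for all rational functions `R` with algebraic coefficients with numerator and
denominator of degree at most `D` in each variable for which `R(t)` is transcendental.
Nothing is assumed about `t`.

Proof.  The `p`-adic linear subgroup theorem (in a parametric form) is proved by the method of
interpolation determinants, with the zero estimate of the starting files: the completion of the
algebraic closure of `ℚ_p` is a field isomorphic to `ℂ`, which transports the algebraic part of the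
obstruction theorem.  It implies the hyperplane theorem: if `x_1, ..., x_d` are linearly independent
over the algebraic numbers then the space of relations `∑ x_u a_u = 0` with linear forms `a_u` in `1`
and logarithms has dimension at most `d (d - 1)`.
A relation `A(t) y = B(t) z` is a linear relation with coefficients in the space `X(D + 1)` of values
at `t` of polynomials of degree at most `D`.
Multiplying by `X(D)` and using `dim X(2D) ≤ 2^n dim X(D)` one sees that the rank of the set of these
relations is at most `(4D)^n - 2^n`; a maximal independent subset of the relations involves a space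
of linear forms in logarithms of at most twice this dimension, and `A(t)/B(t)` being transcendental
forces all other `y` into this space.
-/

set_option autoImplicit false

namespace Pool.Agent.Results.MP_dd0d16_nt.RationalMultiples

open MvPolynomial

/-- The linear forms, with algebraic coefficients, in `1` and the values at nonzero algebraic
numbers of `L` (which is going to be the `p`-adic logarithm). -/
noncomputable def LogForms (p : ℕ) [Fact p.Prime] (L : PadicAlgCl p → PadicAlgCl p) :
    Submodule (algebraicClosure ℚ (PadicAlgCl p)) (PadicAlgCl p) :=
  Submodule.span (algebraicClosure ℚ (PadicAlgCl p))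
    ({1} ∪ {z | ∃ α : PadicAlgCl p, α ≠ 0 ∧ IsAlgebraic ℚ α ∧ z = L α})

/-- **Main result.** -/
theorem result (p : ℕ) [Fact p.Prime] (L : PadicAlgCl p → PadicAlgCl p)
    (hmul : ∀ x y : PadicAlgCl p, x ≠ 0 → y ≠ 0 → L (x * y) = L x + L y)
    (hprime : L ((p : ℕ) : PadicAlgCl p) = 0)
    (hser : ∀ z : PadicAlgCl p, ‖z‖ < 1 →
      HasSum (fun n : ℕ => (-1 : PadicAlgCl p) ^ n * z ^ (n + 1) / ((n : PadicAlgCl p) + 1))
        (L (1 + z)))
    (n D : ℕ) (t : Fin n → PadicAlgCl p) (ι : Type) (y : ι → PadicAlgCl p)
    (hy : ∀ i, y i ∈ LogForms p L)
    (hyi : LinearIndependent (algebraicClosure ℚ (PadicAlgCl p)) y) :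
    ∃ E : Finset ι, E.card ≤ 2 * ((4 * D) ^ n - 2 ^ n) ∧ ∀ i, i ∉ E →
      ∀ A B : MvPolynomial (Fin n) (algebraicClosure ℚ (PadicAlgCl p)),
        (∀ d ∈ A.support, ∀ j, d j ≤ D) → (∀ d ∈ B.support, ∀ j, d j ≤ D) → aeval t B ≠ 0 →
        Transcendental ℚ (aeval t A / aeval t B) →
        aeval t A / aeval t B * y i ∉ LogForms p L :=
  Pool.Agent.W254.Ab.four_gen (Pool.Agent.W254.PA.hyp_padic ⟨hmul, hprime, hser⟩) t D y hy hyi

end Pool.Agent.Results.MP_dd0d16_nt.RationalMultiples
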